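import Mathlib

namespace Pool.Agent.Results.MP_83c1a8_pr.Book

open SimpleGraph

lemma acyclic_of_rank {V : Type} {H : SimpleGraph V} (f : V → ℕ)
    (h : ∀ v x y, H.Adj v x → H.Adj v y → f x ≤ f v → f y ≤ f v → x = y) : H.IsAcyclic := by
  classical
  intro u c hc
  obtain ⟨v, hv, hm⟩ := c.support.toFinset.exists_max_image f ⟨u, by simp⟩
  simp only [List.mem_toFinset] at hv hm
  have hd := hc.rotate hv
  have hs : ∀ x ∈ (c.rotate v hv).support, f x ≤ f v := fun x hx =>
    hm x ((Walk.mem_support_rotate_iff _ _ _).mp hx)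
  exact hd.snd_ne_penultimate (h v _ _ (Walk.adj_snd hd.not_nil)
    (Walk.adj_penultimate hd.not_nil).symm (hs _ (Walk.getVert_mem_support _ _))
    (hs _ (Walk.getVert_mem_support _ _)))

def E : Fin 11 → Sym2 (Fin 7) := ![s(0, 1), s(0, 2), s(0, 3), s(0, 4), s(0, 5), s(0, 6),
  s(1, 2), s(1, 3), s(1, 4), s(1, 5), s(1, 6)]

def ix (i j : Fin 7) : ℕ :=
  if i = j then 11 else if i = 0 then j - 1 else if j = 0 then i - 1 else if i = 1 then j + 4
  else if j = 1 then i + 4 else 11

lemma E_ix : ∀ i j k, E k = s(i, j) ↔ ix i j = k.val := by decide +kernel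
lemma ix_le : ∀ i j, ix i j ≤ 11 := by decide +kernel
lemma E_inj : Function.Injective E := by decide +kernel
lemma E_diag : ∀ k, ¬ (E k).IsDiag := by decide +kernel

def S (m : ℕ) : Finset (Fin 11) := Finset.univ.filter fun k => m.testBit k

def g (m : ℕ) : SimpleGraph (Fin 7) := fromEdgeSet (E '' S m)

lemma g_edge (m : ℕ) : (g m).edgeSet = E '' S m := by
  rw [g, edgeSet_fromEdgeSet]
  ext e
  simp only [Set.mem_sdiff, Sym2.mem_diagSet, and_iff_left_iff_imp]
  rintro ⟨k, -, rfl⟩
  exact E_diag k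

lemma g_card (m : ℕ) : (g m).edgeSet.ncard = (S m).card := by
  rw [g_edge, Set.ncard_image_of_injective _ E_inj, Set.ncard_coe_finset]

lemma g_adj {m : ℕ} (hm : m < 2048) (i j) : (g m).Adj i j ↔ m.testBit (ix i j) = true := by
  rw [← mem_edgeSet, g_edge]
  simp only [S, Finset.coe_filter, Finset.mem_univ, true_and, Set.mem_image, Set.mem_ofPred_eq,
    E_ix]
  constructor
  · rintro ⟨k, h, e⟩
    rwa [e]
  · intro h
    rcases (ix_le i j).lt_or_eq with h1 | h1
    · exact ⟨⟨_, h1⟩, h, rfl⟩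
    · rw [h1, Nat.testBit_lt_two_pow (by omega)] at h
      cases h

lemma g_inj {m m' : ℕ} (hm : m < 2048) (hm' : m' < 2048) (h : g m = g m') : m = m' := by
  have h1 : S m = S m' := by
    have := congrArg edgeSet h
    rw [g_edge, g_edge] at this
    exact_mod_cast (Set.image_injective.mpr E_inj) this
  refine Nat.eq_of_testBit_eq fun i => ?_
  by_cases hi : i < 11
  · have := congrArg (fun s => (⟨i, hi⟩ : Fin 11) ∈ s) h1
    simpa [S] using this
  · have : 2 ^ 11 ≤ 2 ^ i := Nat.pow_le_pow_right two_pos (by omega)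
    rw [Nat.testBit_lt_two_pow (by omega), Nat.testBit_lt_two_pow (by omega)]

lemma g_surj (H : SimpleGraph (Fin 7)) : H ≤ g 2047 ↔ ∃ m < 2048, g m = H := by
  classical
  have hS : S 2047 = Finset.univ := by decide +kernel
  constructor
  · intro h
    refine ⟨Nat.ofBits fun k : Fin 11 => decide (E k ∈ H.edgeSet), Nat.ofBits_lt_two_pow _, ?_⟩
    rw [← edgeSet_inj, g_edge]
    ext e
    simp only [S, Finset.coe_filter, Finset.mem_univ, true_and, Set.mem_image, Set.mem_ofPred_eq,
      Nat.testBit_ofBits_lt _ _ (Fin.is_lt _), Fin.eta, decide_eq_true_eq]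
    constructor
    · rintro ⟨k, h, rfl⟩
      exact h
    · intro he
      have := edgeSet_mono h he
      rw [g_edge] at this
      obtain ⟨k, -, rfl⟩ := this
      exact ⟨k, he, rfl⟩
  · rintro ⟨m, -, rfl⟩
    exact fromEdgeSet_mono (Set.image_mono (by simp [hS]))

def cy (m : ℕ) : Bool := (List.finRange 7).any fun w => m.testBit (ix 0 w) && m.testBit (ix w 1) &&
  (m.testBit (ix 0 1) || (List.finRange 7).any fun x =>
    m.testBit (ix 0 x) && m.testBit (ix x 1) && w != x)

def rk (m : ℕ) (v : Fin 7) : ℕ :=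
  if v = 0 then 0 else if m.testBit (ix 0 v) && m.testBit (ix v 1) then 1 else v + 1

set_option synthInstance.maxSize 4096 in
lemma rk_ok : ∀ m < 2048, cy m = false → ∀ v x, m.testBit (ix v x) = true → rk m x ≤ rk m v →
    ∀ y, m.testBit (ix v y) = true → rk m y ≤ rk m v → x = y := by decide +kernel

lemma g_acyclic {m : ℕ} (hm : m < 2048) : (g m).IsAcyclic ↔ cy m = false := by
  constructor
  · intro h
    by_contra hc
    simp only [Bool.not_eq_false, cy, List.any_eq_true, Bool.and_eq_true, Bool.or_eq_true,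
      ← g_adj hm, bne_iff_ne] at hc
    obtain ⟨w, -, ⟨h1, h2⟩, h3 | ⟨x, -, ⟨h4, h5⟩, h6⟩⟩ := hc
    · have := h.path_unique ⟨.cons h1 (.cons h2 .nil), by simp [h1.ne, h2.ne]⟩
        ⟨.cons h3 .nil, by simp⟩
      have := congrArg (fun p => p.1.length) this
      simp at this
    · have := h.path_unique ⟨.cons h1 (.cons h2 .nil), by simp [h1.ne, h2.ne]⟩
        ⟨.cons h4 (.cons h5 .nil), by simp [h4.ne, h5.ne]⟩
      have := congrArg (fun p => p.1.support) this
      simp at this
      exact h6 this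
  · intro h
    exact acyclic_of_rank (rk m) fun v x y a b c d =>
      rk_ok m hm h v x ((g_adj hm _ _).mp a) c y ((g_adj hm _ _).mp b) d

lemma tree_iff (H : SimpleGraph (Fin 7)) : H.IsTree ↔ H.IsAcyclic ∧ H.edgeSet.ncard = 6 := by
  have hc : ∀ T : SimpleGraph (Fin 7), T.IsTree → T.edgeSet.ncard = 6 := fun T hT => by
    have := (isTree_iff_connected_and_card.mp hT).2
    rw [Nat.card_coe_set_eq, Nat.card_eq_fintype_card, Fintype.card_fin] at this
    omega
  refine ⟨fun h => ⟨h.isAcyclic, hc H h⟩, fun ⟨h1, h2⟩ => ?_⟩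
  obtain ⟨T, h3, -, h4⟩ := (connected_top (V := Fin 7)).exists_isTree_le_of_le_of_isAcyclic
    le_top h1
  have : H = T := by
    rw [← edgeSet_inj]
    exact Set.eq_of_subset_of_ncard_le (edgeSet_mono h3) (by rw [h2, hc T h4])
  rwa [this]

lemma count (Q : SimpleGraph (Fin 7) → Prop) (q : ℕ → Bool)
    (h : ∀ m < 2048, Q (g m) ↔ q m = true) :
    {H | H ≤ g 2047 ∧ Q H}.ncard = ((Finset.range 2048).filter fun m => q m).card := by
  rw [← Set.ncard_coe_finset, ← Set.InjOn.ncard_image (f := g)]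
  · congr 1
    ext H
    simp only [Set.mem_ofPred_eq, g_surj, Finset.coe_filter, Finset.mem_range, Set.mem_image]
    constructor
    · rintro ⟨⟨m, hm, rfl⟩, hq⟩
      exact ⟨m, ⟨hm, (h m hm).mp hq⟩, rfl⟩
    · rintro ⟨m, ⟨hm, hq⟩, rfl⟩
      exact ⟨⟨m, hm, rfl⟩, (h m hm).mpr hq⟩
  · intro a ha b hb
    simp only [Finset.coe_filter, Finset.mem_range, Set.mem_ofPred_eq] at ha hb
    exact g_inj ha.1 hb.1

theorem result : ∃ (n : ℕ) (G : SimpleGraph (Fin n)) (u v : Fin n), 2 ≤ n ∧ G.Connected ∧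
    n + 2 ≤ G.edgeSet.ncard ∧ G.Adj u v ∧
    ({H | H ≤ G ∧ H.IsTree ∧ H.Adj u v}.ncard : ℝ) / {H | H ≤ G ∧ H.IsTree}.ncard <
      ({H | H ≤ G ∧ H.IsAcyclic ∧ H.edgeSet.ncard + 2 = n ∧ H.Adj u v}.ncard : ℝ) /
        {H | H ≤ G ∧ H.IsAcyclic ∧ H.edgeSet.ncard + 2 = n}.ncard := by
  refine ⟨7, g 2047, 0, 1, by omega, ?_, by rw [g_card]; decide +kernel,
    (g_adj (by omega) _ _).mpr (by decide +kernel), ?_⟩
  · have : (g 63).IsTree := (tree_iff _).mpr
      ⟨(g_acyclic (by omega)).mpr (by decide +kernel), by rw [g_card]; decide +kernel⟩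
    exact this.connected.mono ((g_surj _).mpr ⟨63, by omega, rfl⟩)
  rw [count _ (fun m => (S m).card == 6 && !cy m && m.testBit 0) fun m hm => by
      simp [tree_iff, g_acyclic hm, g_card, g_adj hm, ix]; tauto,
    count _ (fun m => (S m).card == 6 && !cy m) fun m hm => by
      simp [tree_iff, g_acyclic hm, g_card]; tauto,
    count _ (fun m => (S m).card == 5 && !cy m && m.testBit 0) fun m hm => by
      simp [g_acyclic hm, g_card, g_adj hm, ix]; tauto,
    count _ (fun m => (S m).card == 5 && !cy m) fun m hm => by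
      simp [g_acyclic hm, g_card]; tauto]
  have h1 : ((Finset.range 2048).filter fun m =>
    ((S m).card == 6 && !cy m && m.testBit 0) = true).card = 32 := by decide +kernel
  have h2 : ((Finset.range 2048).filter fun m =>
    ((S m).card == 6 && !cy m) = true).card = 112 := by decide +kernel
  have h3 : ((Finset.range 2048).filter fun m =>
    ((S m).card == 5 && !cy m && m.testBit 0) = true).card = 80 := by decide +kernel
  have h4 : ((Finset.range 2048).filter fun m =>
    ((S m).card == 5 && !cy m) = true).card = 272 := by decide +kernel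
  rw [h1, h2, h3, h4]
  norm_num

end Pool.Agent.Results.MP_83c1a8_pr.Book
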